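import Mathlib

/-!
# Integral combinations of nilsequences with slowly growing bounds

Q1 asks whether every multiple correlation sequence is `∫ N_y(n) dσ(y)` with nilsequences `N_y` such that
`y ↦ N_y(n)` is integrable for every `n`. Here: every bounded function on `ℤ^ℓ` is of this form, with
1-step nilsequences and with `|N_y(n)| ≤ B M(n)` for all `y` and `n`, where `M ≥ 1` is any function that tends
to infinity, however slowly. For bounded `M` this fails for some correlation sequences (Briët and Green).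
-/

set_option autoImplicit false

open MeasureTheory

namespace Pool.Agent.Results.MP_b4ed41_an.SlowGrowth

/-- `N : ℤ^ℓ → ℂ` is a basic 1-step nilsequence on the torus `(ℝ/ℤ)^ℓ` (`G = ℝ^ℓ`, `Γ = ℤ^ℓ`) with a continuous
function `F` and the element `(β_1, …, β_ℓ)`: `N(n) = F(n_1 β_1, …, n_ℓ β_ℓ)`. -/
def TorusNilseq (ℓ : ℕ) (N : (Fin ℓ → ℤ) → ℂ) : Prop :=
  ∃ (F : C(Fin ℓ → UnitAddCircle, ℂ)) (b : Fin ℓ → ℝ),
    ∀ n : Fin ℓ → ℤ, N n = F (fun i => ((n i * b i : ℝ) : UnitAddCircle))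

/-- The orbit point of `n`. -/
noncomputable def pt (ℓ : ℕ) (n : Fin ℓ → ℤ) : Fin ℓ → UnitAddCircle :=
  fun i => ((n i * Real.sqrt 2 : ℝ) : UnitAddCircle)

theorem pt_inj (ℓ : ℕ) : Function.Injective (pt ℓ) := by
  intro m n h
  funext i
  have hi : (((m i * Real.sqrt 2 : ℝ)) : UnitAddCircle) = ((n i * Real.sqrt 2 : ℝ) : UnitAddCircle) :=
    congrFun h i
  rw [← sub_eq_zero, ← AddCircle.coe_sub, AddCircle.coe_eq_zero_iff] at hi
  obtain ⟨z, hz⟩ := hi
  by_contra hne
  have hd : (m i - n i : ℤ) ≠ 0 := sub_ne_zero.mpr hne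
  have hirr : Irrational (((m i - n i : ℤ) : ℝ) * Real.sqrt 2) :=
    irrational_sqrt_two.intCast_mul hd
  apply hirr
  refine ⟨(z : ℚ), ?_⟩
  push_cast
  simp only [zsmul_eq_mul, mul_one] at hz
  rw [hz]
  ring

/-- Interpolation on a finite set, with a bound. -/
theorem interp (ℓ : ℕ) (C : (Fin ℓ → ℤ) → ℂ) {B : ℝ} (hB : 0 < B) (hC : ∀ n, ‖C n‖ ≤ B)
    (s : Finset (Fin ℓ → ℤ)) :
    ∃ F : C(Fin ℓ → UnitAddCircle, ℂ), (∀ x, ‖F x‖ ≤ B) ∧ ∀ n ∈ s, F (pt ℓ n) = C n := by
  classical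
  let S : Set (Fin ℓ → UnitAddCircle) := (s.image (pt ℓ) : Finset _)
  have hS : S.Finite := Finset.finite_toSet _
  have hc : IsClosed S := hS.isClosed
  have hfS : Finite S := hS
  let f : C(S, ℂ) := ⟨fun x => Function.extend (pt ℓ) C 0 x.1, continuous_of_discreteTopology⟩
  obtain ⟨g, hg⟩ := ContinuousMap.exists_restrict_eq hc f
  have hgC : ∀ n ∈ s, g (pt ℓ n) = C n := by
    intro n hn
    have hmem : pt ℓ n ∈ S := by
      simp only [S, Finset.coe_image]
      exact ⟨n, hn, rfl⟩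
    have h1 : g.restrict S ⟨pt ℓ n, hmem⟩ = f ⟨pt ℓ n, hmem⟩ := by rw [hg]
    have h2 : f ⟨pt ℓ n, hmem⟩ = C n := by
      change Function.extend (pt ℓ) C 0 (pt ℓ n) = C n
      exact (pt_inj ℓ).extend_apply C 0 n
    rw [← h2, ← h1]
    rfl
  have hpos : ∀ x, 0 < max B ‖g x‖ := fun x => lt_max_of_lt_left hB
  have hcont : Continuous fun x => ((B / max B ‖g x‖ : ℝ) : ℂ) * g x := by
    apply Continuous.mul _ g.continuous
    apply Complex.continuous_ofReal.comp
    exact continuous_const.div (continuous_const.max g.continuous.norm) (fun x => (hpos x).ne')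
  refine ⟨⟨_, hcont⟩, fun x => ?_, fun n hn => ?_⟩
  · change ‖((B / max B ‖g x‖ : ℝ) : ℂ) * g x‖ ≤ B
    rw [norm_mul, Complex.norm_real, Real.norm_of_nonneg (div_nonneg hB.le (hpos x).le),
      div_mul_eq_mul_div, div_le_iff₀ (hpos x)]
    exact mul_le_mul_of_nonneg_left (le_max_right _ _) hB.le
  · change ((B / max B ‖g (pt ℓ n)‖ : ℝ) : ℂ) * g (pt ℓ n) = C n
    rw [hgC n hn, max_eq_left (hC n), div_self hB.ne']
    simp

/-- The points of `Y = [0,1]`. -/
noncomputable def yk (k : ℕ) : Set.Icc (0 : ℝ) 1 :=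
  ⟨1 / ((k : ℝ) + 1), by positivity, by
    rw [div_le_one (by positivity)]
    have : (0 : ℝ) ≤ k := Nat.cast_nonneg k
    linarith⟩

theorem yk_inj : Function.Injective yk := by
  intro a b h
  have h1 : 1 / ((a : ℝ) + 1) = 1 / ((b : ℝ) + 1) := congrArg Subtype.val h
  have ha : (a : ℝ) + 1 ≠ 0 := by positivity
  have hb : (b : ℝ) + 1 ≠ 0 := by positivity
  field_simp at h1
  have : (a : ℝ) = b := by linarith
  exact_mod_cast this

/-- The measure on `Y`. -/
noncomputable def sg : Measure (Set.Icc (0 : ℝ) 1) :=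
  Measure.sum (fun k : ℕ => ((2 : ENNReal)⁻¹ ^ k) • Measure.dirac (yk k))

theorem sg_univ : sg Set.univ = 2 := by
  rw [sg, Measure.sum_apply _ MeasurableSet.univ]
  simp only [Measure.smul_apply, Measure.dirac_apply' _ MeasurableSet.univ, Set.indicator_univ,
    Pi.one_apply, smul_eq_mul, mul_one]
  rw [ENNReal.tsum_geometric, ENNReal.one_sub_inv_two, inv_inv]

theorem sg_single (k : ℕ) : sg {yk k} = (2 : ENNReal)⁻¹ ^ k := by
  rw [sg, Measure.sum_apply _ (measurableSet_singleton _)]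
  rw [tsum_eq_single k]
  · simp [Measure.smul_apply]
  · intro j hj
    have : yk j ∉ ({yk k} : Set (Set.Icc (0 : ℝ) 1)) := by
      intro h
      exact hj (yk_inj h)
    simp [Measure.smul_apply, Measure.dirac_apply' _ (measurableSet_singleton _), this]

/-- The representation for the measure `sg`. -/
theorem rep (ℓ : ℕ) (C : (Fin ℓ → ℤ) → ℂ) (B : ℝ) (hB : 0 < B) (hC : ∀ n, ‖C n‖ ≤ B)
    (M : (Fin ℓ → ℤ) → ℝ) (hM1 : ∀ n, 1 ≤ M n) (hM : Filter.Tendsto M Filter.cofinite Filter.atTop) :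
    ∃ N : Set.Icc (0 : ℝ) 1 → (Fin ℓ → ℤ) → ℂ,
      (∀ y, TorusNilseq ℓ (N y)) ∧ (∀ y n, ‖N y n‖ ≤ B * M n) ∧
        ∀ n, Integrable (fun y => N y n) sg ∧ ∫ y, N y n ∂sg = C n := by
  classical
  -- an exhaustion of `ℤ^ℓ` by finite sets
  have hfin : ∀ k : ℕ, {n : Fin ℓ → ℤ | M n < 2 ^ (k + 2)}.Finite := fun k => by
    have h := hM.eventually (Filter.eventually_ge_atTop ((2 : ℝ) ^ (k + 2)))
    rw [Filter.eventually_cofinite] at h
    refine h.subset fun n hn => ?_
    simpa using hn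
  choose G hGB hG using fun k : ℕ => interp ℓ C hB hC (hfin k).toFinset
  have hG' : ∀ n k, M n < 2 ^ (k + 2) → G k (pt ℓ n) = C n := fun n k h =>
    hG k n ((hfin k).mem_toFinset.mpr h)
  have hex : ∀ n, ∃ k : ℕ, M n < 2 ^ (k + 2) := by
    intro n
    obtain ⟨k, hk⟩ := pow_unbounded_of_one_lt (M n) (one_lt_two : (1 : ℝ) < 2)
    exact ⟨k, hk.trans_le (pow_le_pow_right₀ one_le_two (by omega))⟩
  let e : (Fin ℓ → ℤ) → ℕ := fun n => Nat.find (hex n)
  have he : ∀ n, M n < 2 ^ (e n + 2) := fun n => Nat.find_spec (hex n)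
  have he' : ∀ n k, e n ≤ k → M n < 2 ^ (k + 2) := fun n k h =>
    (he n).trans_le (pow_le_pow_right₀ one_le_two (by omega))
  have hmin : ∀ n, e n ≠ 0 → (2 : ℝ) ^ (e n + 1) ≤ M n := by
    intro n h0
    by_contra hlt
    push Not at hlt
    have h1 : e n ≤ e n - 1 := Nat.find_min' (hex n) (by
      have : e n - 1 + 2 = e n + 1 := by omega
      rw [this]
      exact hlt)
    omega
  let D : ℕ → C(Fin ℓ → UnitAddCircle, ℂ) := fun k => match k with
    | 0 => G 0
    | k + 1 => G (k + 1) - G k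
  have hsum : ∀ K x, ∑ k ∈ Finset.range (K + 1), D k x = G K x := by
    intro K x
    induction K with
    | zero => simp [D]
    | succ K ih =>
      rw [Finset.sum_range_succ, ih]
      simp [D]
  have hD : ∀ n k, e n < k → D k (pt ℓ n) = 0 := by
    intro n k h
    cases k with
    | zero => omega
    | succ k =>
      simp only [D, ContinuousMap.sub_apply]
      rw [hG' n (k + 1) (he' n _ (by omega)), hG' n k (he' n _ (by omega)), sub_self]
  have hD0 : ∀ x, ‖D 0 x‖ ≤ B := fun x => hGB 0 x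
  have hDB : ∀ k x, ‖D k x‖ ≤ 2 * B := by
    intro k x
    cases k with
    | zero =>
      have := hD0 x
      linarith
    | succ k =>
      simp only [D, ContinuousMap.sub_apply]
      have h1 := norm_sub_le (G (k + 1) x) (G k x)
      have h2 := hGB (k + 1) x
      have h3 := hGB k x
      linarith
  have hbound : ∀ k n, ‖(2 : ℂ) ^ k * D k (pt ℓ n)‖ ≤ B * M n := by
    intro k n
    have hnn : 0 ≤ B * M n := mul_nonneg hB.le (zero_le_one.trans (hM1 n))
    rcases Nat.lt_or_ge (e n) k with h | h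
    · rw [hD n k h, mul_zero, norm_zero]
      exact hnn
    · have hn2 : ‖(2 : ℂ) ^ k‖ = (2 : ℝ) ^ k := by
        rw [norm_pow]
        norm_num
      rw [norm_mul, hn2]
      by_cases h0 : e n = 0
      · have hk : k = 0 := by omega
        subst hk
        have h1 := hD0 (pt ℓ n)
        have h2 : B * 1 ≤ B * M n := mul_le_mul_of_nonneg_left (hM1 n) hB.le
        simpa using h1.trans (by linarith)
      · calc (2 : ℝ) ^ k * ‖D k (pt ℓ n)‖ ≤ 2 ^ (e n) * (2 * B) :=
              mul_le_mul (pow_le_pow_right₀ one_le_two h) (hDB k _) (norm_nonneg _) (by positivity)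
          _ = B * 2 ^ (e n + 1) := by ring
          _ ≤ B * M n := mul_le_mul_of_nonneg_left (hmin n h0) hB.le
  let N : Set.Icc (0 : ℝ) 1 → (Fin ℓ → ℤ) → ℂ := fun y n =>
    if h : ∃ k, yk k = y then (2 : ℂ) ^ h.choose * D h.choose (pt ℓ n) else 0
  have hNk : ∀ k n, N (yk k) n = (2 : ℂ) ^ k * D k (pt ℓ n) := by
    intro k n
    have h : ∃ j, yk j = yk k := ⟨k, rfl⟩
    have hk : h.choose = k := yk_inj h.choose_spec
    simp only [N, dif_pos h, hk]
  have hNsum : ∀ n, (fun y => N y n) = fun y => ∑ k ∈ Finset.range (e n + 1),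
      Set.indicator {yk k} (fun _ => (2 : ℂ) ^ k * D k (pt ℓ n)) y := by
    intro n
    funext y
    by_cases h : ∃ k, yk k = y
    · obtain ⟨k, rfl⟩ := h
      rw [hNk]
      by_cases hk : k < e n + 1
      · rw [Finset.sum_eq_single k]
        · simp
        · intro j _ hj
          have : yk k ∉ ({yk j} : Set (Set.Icc (0 : ℝ) 1)) := fun h => hj (yk_inj h).symm
          simp [Set.indicator_of_notMem this]
        · intro h
          exact absurd (Finset.mem_range.mpr hk) h
      · rw [hD n k (by omega), mul_zero]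
        symm
        apply Finset.sum_eq_zero
        intro j hj
        have hjk : j ≠ k := by
          have := Finset.mem_range.mp hj
          omega
        have : yk k ∉ ({yk j} : Set (Set.Icc (0 : ℝ) 1)) := fun h => hjk (yk_inj h).symm
        simp [Set.indicator_of_notMem this]
    · have h0 : N y n = 0 := by simp only [N, dif_neg h]
      rw [h0]
      symm
      apply Finset.sum_eq_zero
      intro j _
      have : y ∉ ({yk j} : Set (Set.Icc (0 : ℝ) 1)) := fun h' => h ⟨j, h'.symm⟩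
      simp [Set.indicator_of_notMem this]
  have hfm : IsFiniteMeasure sg := ⟨by rw [sg_univ]; exact ENNReal.ofNat_lt_top⟩
  have hint : ∀ n k, Integrable (Set.indicator ({yk k} : Set (Set.Icc (0 : ℝ) 1))
      (fun _ => (2 : ℂ) ^ k * D k (pt ℓ n))) sg := fun n k =>
    (integrable_const _).indicator (measurableSet_singleton _)
  refine ⟨N, ?_, ?_, ?_⟩
  · intro y
    by_cases h : ∃ k, yk k = y
    · obtain ⟨k, rfl⟩ := h
      refine ⟨(2 : ℂ) ^ k • D k, fun _ => Real.sqrt 2, fun n => ?_⟩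
      rw [hNk]
      rfl
    · refine ⟨0, fun _ => 0, fun n => ?_⟩
      simp only [N, dif_neg h]
      rfl
  · intro y n
    by_cases h : ∃ k, yk k = y
    · obtain ⟨k, rfl⟩ := h
      rw [hNk]
      exact hbound k n
    · simp only [N, dif_neg h, norm_zero]
      exact mul_nonneg hB.le (zero_le_one.trans (hM1 n))
  · intro n
    rw [hNsum n]
    refine ⟨integrable_finsetSum _ (fun k _ => hint n k), ?_⟩
    rw [integral_finsetSum _ (fun k _ => hint n k)]
    have : ∀ k ∈ Finset.range (e n + 1), (∫ y, Set.indicator ({yk k} : Set (Set.Icc (0 : ℝ) 1))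
        (fun _ => (2 : ℂ) ^ k * D k (pt ℓ n)) y ∂sg) = D k (pt ℓ n) := by
      intro k _
      rw [integral_indicator_const _ (measurableSet_singleton _), measureReal_def, sg_single]
      simp only [ENNReal.toReal_pow, ENNReal.toReal_inv, ENNReal.toReal_ofNat, Complex.real_smul]
      push_cast
      rw [← mul_assoc, ← mul_pow]
      simp
    rw [Finset.sum_congr rfl this, hsum, hG' n (e n) (he n)]

/-- There is one positive measure `σ` of mass 2 on `[0,1]` such that for all `ℓ`, all `C` with `|C| ≤ B` on `ℤ^ℓ`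
and all `M ≥ 1` that tend to infinity: `C(n) = ∫ N_y(n) dσ(y)` for all `n`, with basic 1-step nilsequences `N_y`
on the torus, `y ↦ N_y(n)` integrable for every `n`, and `|N_y(n)| ≤ B M(n)` for all `y` and `n`. -/
theorem result : ∃ σ : Measure (Set.Icc (0 : ℝ) 1), σ Set.univ = 2 ∧
    ∀ (ℓ : ℕ) (C : (Fin ℓ → ℤ) → ℂ) (B : ℝ) (M : (Fin ℓ → ℤ) → ℝ), 0 < B → (∀ n, ‖C n‖ ≤ B) →
      (∀ n, 1 ≤ M n) → Filter.Tendsto M Filter.cofinite Filter.atTop →
      ∃ N : Set.Icc (0 : ℝ) 1 → (Fin ℓ → ℤ) → ℂ,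
        (∀ y, TorusNilseq ℓ (N y)) ∧ (∀ y n, ‖N y n‖ ≤ B * M n) ∧
          ∀ n, Integrable (fun y => N y n) σ ∧ ∫ y, N y n ∂σ = C n :=
  ⟨sg, sg_univ, fun ℓ C B M hB hC hM1 hM => rep ℓ C B hB hC M hM1 hM⟩

end Pool.Agent.Results.MP_b4ed41_an.SlowGrowth
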